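import Pool.Agent.K6.H62.PT.Stm

/-!
# BDD
-/

set_option autoImplicit false

open Cardinal Order

namespace Pool.Agent.K6.H62.PT

universe u

namespace BDD

theorem iic {κ : Cardinal.{u}} {X : Type u} [LinearOrder X] (hκ : κ.IsRegular) (hX : Std κ X)
    (x : X) : #(↥(Set.Iic x)) < κ := by
  have h1 : Set.Iic x = insert x (Set.Iio x) := by
    rw [← Set.Iio_insert]
  rw [h1]
  refine lt_of_le_of_lt (mk_insert_le) ?_
  exact add_lt_of_lt hκ.aleph0_le (hX.2 x) (lt_of_lt_of_le one_lt_aleph0 hκ.aleph0_le)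

theorem bdd {κ : Cardinal.{u}} {X : Type u} [LinearOrder X] (hκ : κ.IsRegular) (hX : Std κ X)
    (s : Set X) (hs : #(↥s) < κ) : ∃ x, ∀ y ∈ s, y < x := by
  by_contra hcon
  push Not at hcon
  have h1 : #(↥(⋃ y : s, Set.Iic (y : X))) < κ :=
    (card_iUnion_lt_iff_forall_of_isRegular hκ hs).2 fun y => iic hκ hX y
  have h2 : (⋃ y : s, Set.Iic (y : X)) = Set.univ := by
    rw [Set.eq_univ_iff_forall]
    intro x
    obtain ⟨y, hy, hxy⟩ := hcon x
    exact Set.mem_iUnion.2 ⟨⟨y, hy⟩, hxy⟩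
  rw [h2, mk_univ, hX.1] at h1
  exact lt_irrefl _ h1

end BDD

theorem t_BDD : S_BDD.{u} := by
  intro κ X _ _ hκ hX
  refine ⟨BDD.bdd hκ hX, ?_, ?_, ?_⟩
  · intro s x hx
    exact lt_of_le_of_lt (mk_le_mk_of_subset hx) (BDD.iic hκ hX x)
  · intro s hs
    refine le_antisymm ((mk_set_le s).trans hX.1.le) ?_
    by_contra hcon
    rw [not_le] at hcon
    obtain ⟨x, hx⟩ := BDD.bdd hκ hX s hcon
    obtain ⟨y, hy, hxy⟩ := hs x
    exact absurd (hx y hy) (not_lt.2 hxy)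
  · intro x
    obtain ⟨y, hy⟩ := BDD.bdd hκ hX {x} (by
      rw [mk_singleton]
      exact lt_of_lt_of_le one_lt_aleph0 hκ.aleph0_le)
    exact ⟨y, hy x rfl⟩

end Pool.Agent.K6.H62.PT
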