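import Mathlib

set_option autoImplicit false

/-!
Statements for MP_b10269_lc (pseudo-intersection and tower numbers at uncountable cardinals):
`𝔭(κ) = κ⁺` implies `𝔱(κ) = κ⁺` for EVERY regular uncountable `κ` (no `κ^{<κ} = κ`).
-/

open Cardinal Order

namespace Pool.Agent.K6.H62.PT

universe u

/-- the set `κ` -/
abbrev KK (κ : Cardinal.{u}) : Type u := κ.ord.ToType

/-- `A ⊆* F`: the difference has cardinality less than `κ` -/
def ASub {X : Type u} (κ : Cardinal.{u}) (A F : Set X) : Prop := #(↥(A \ F)) < κ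

/-- strong intersection property -/
def SIP {X : Type u} (κ : Cardinal.{u}) (𝓕 : Set (Set X)) : Prop :=
  ∀ 𝓖 : Set (Set X), 𝓖 ⊆ 𝓕 → #(↥𝓖) < κ → #(↥(⋂₀ 𝓖)) = κ

/-- a family of sets of cardinality `κ` with the strong intersection property and without a
pseudo-intersection of cardinality `κ` -/
def Good {X : Type u} (κ : Cardinal.{u}) (𝓕 : Set (Set X)) : Prop :=
  (∀ F ∈ 𝓕, #(↥F) = κ) ∧ SIP κ 𝓕 ∧ ¬ ∃ A : Set X, #(↥A) = κ ∧ ∀ F ∈ 𝓕, ASub κ A F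

/-- a tower: `{T_α : α < δ}`, `⊆*`-decreasing, with the SIP and no pseudo-intersection of size `κ` -/
def IsTower {X : Type u} (κ : Cardinal.{u}) (𝓣 : Set (Set X)) : Prop :=
  Good κ 𝓣 ∧ ∃ (δ : Ordinal.{u}) (T : Ordinal.{u} → Set X), 𝓣 = T '' Set.Iio δ ∧
    ∀ α β : Ordinal.{u}, α < β → β < δ → ASub κ (T β) (T α)

/-- `𝔭(κ)` -/
noncomputable def pp (κ : Cardinal.{u}) : Cardinal.{u} :=
  sInf {c | ∃ 𝓕 : Set (Set (KK κ)), Good κ 𝓕 ∧ #(↥𝓕) = c}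

/-- `𝔱(κ)` -/
noncomputable def tt (κ : Cardinal.{u}) : Cardinal.{u} :=
  sInf {c | ∃ 𝓣 : Set (Set (KK κ)), IsTower κ 𝓣 ∧ #(↥𝓣) = c}

/-- `f ≤* g` -/
def AB {X : Type u} [LinearOrder X] (κ : Cardinal.{u}) (f g : X → X) : Prop :=
  #(↥{i | g i < f i}) < κ

/-- `H` is unbounded for `≤*` -/
def Unb {X : Type u} [LinearOrder X] (κ : Cardinal.{u}) (H : Set (X → X)) : Prop :=
  ¬ ∃ g : X → X, ∀ f ∈ H, AB κ f g

/-- `𝔟(κ)` -/
noncomputable def bb (κ : Cardinal.{u}) : Cardinal.{u} :=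
  sInf {c | ∃ H : Set (KK κ → KK κ), Unb κ H ∧ #(↥H) = c}

/-- `X` has cardinality `κ` and small initial segments -/
def Std (κ : Cardinal.{u}) (X : Type u) [LinearOrder X] : Prop :=
  #X = κ ∧ ∀ x : X, #(↥(Set.Iio x)) < κ

/-! ### pieces -/

/-- BDD: small sets are bounded, unbounded sets have cardinality `κ`, no maximum -/
def S_BDD : Prop :=
  ∀ (κ : Cardinal.{u}) (X : Type u) [LinearOrder X] [WellFoundedLT X], κ.IsRegular → Std κ X →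
    (∀ s : Set X, #(↥s) < κ → ∃ x, ∀ y ∈ s, y < x) ∧
    (∀ (s : Set X) (x : X), (∀ y ∈ s, y ≤ x) → #(↥s) < κ) ∧
    (∀ s : Set X, (∀ x : X, ∃ y ∈ s, x ≤ y) → #(↥s) = κ) ∧
    (∀ x : X, ∃ y, x < y)

/-- CLO: closure points of a function are unbounded (`κ` uncountable regular) -/
def S_CLO : Prop :=
  ∀ (κ : Cardinal.{u}) (X : Type u) [LinearOrder X] [WellFoundedLT X], κ.IsRegular → ℵ₀ < κ →
    Std κ X → ∀ (g : X → X) (x : X), ∃ δ : X, x < δ ∧ ∀ i, i < δ → g i < δ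

/-- PSI: at most `κ` sets with the SIP have a pseudo-intersection -/
def S_PSI : Prop :=
  ∀ (κ : Cardinal.{u}) (X : Type u) [LinearOrder X] [WellFoundedLT X], κ.IsRegular → Std κ X →
    ∀ 𝓕 : Set (Set X), SIP κ 𝓕 → #(↥𝓕) ≤ κ →
      ∃ A : Set X, #(↥A) = κ ∧ ∀ F ∈ 𝓕, ASub κ A F

/-- SYS: a coherent system of small sets below the elements of a well-order of type `≤ κ⁺` -/
def S_SYS : Prop :=
  ∀ (κ : Cardinal.{u}) (X W : Type u) [LinearOrder X] [WellFoundedLT X] [LinearOrder W]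
    [WellFoundedLT W], κ.IsRegular → Std κ X → (∀ γ : W, #(↥(Set.Iio γ)) ≤ κ) →
    ∃ P : X → W → Set W, (∀ i γ, #(↥(P i γ)) < κ) ∧ (∀ i j γ, i ≤ j → P i γ ⊆ P j γ) ∧
      (∀ ξ γ, ξ < γ → ∃ i, ξ ∈ P i γ) ∧ (∀ β γ, β < γ → ∃ i₀, ∀ i, i₀ ≤ i → P i β ⊆ P i γ)

/-- BTW: the bounded case -/
def S_BTW : Prop :=
  ∀ (κ : Cardinal.{u}) (X W : Type u) [LinearOrder X] [WellFoundedLT X] [LinearOrder W]
    [WellFoundedLT W], κ.IsRegular → Std κ X → Std (succ κ) W →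
    ∀ (F : W → Set X) (P : X → W → Set W) (f : W → X → X) (g : X → X),
      Good κ (Set.range F) →
      (∀ i γ, #(↥(P i γ)) < κ) → (∀ i j γ, i ≤ j → P i γ ⊆ P j γ) →
      (∀ ξ γ, ξ < γ → ∃ i, ξ ∈ P i γ) → (∀ β γ, β < γ → ∃ i₀, ∀ i, i₀ ≤ i → P i β ⊆ P i γ) →
      (∀ γ i, i ≤ f γ i ∧ ∀ ξ ∈ P i γ, f γ i ∈ F ξ) → (∀ γ, AB κ (f γ) g) →
      ∃ T : W → Set X, Good κ (Set.range T) ∧ ∀ β γ, β < γ → ASub κ (T γ) (T β)

/-- INC: an unbounded family yields an increasing unbounded sequence, not longer -/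
def S_INC : Prop :=
  ∀ (κ : Cardinal.{u}) (X : Type u) [LinearOrder X] [WellFoundedLT X], κ.IsRegular → Std κ X →
    ∀ H : Set (X → X), Unb κ H →
      ∃ (δ : Ordinal.{u}) (G : Ordinal.{u} → X → X), δ.card ≤ #(↥H) ∧
        (∀ α β, α < β → β < δ → AB κ (G α) (G β)) ∧ ¬ ∃ g : X → X, ∀ α, α < δ → AB κ (G α) g

/-- CLB: an increasing unbounded sequence gives a tower of club sets -/
def S_CLB : Prop :=
  ∀ (κ : Cardinal.{u}) (X : Type u) [LinearOrder X] [WellFoundedLT X], κ.IsRegular → ℵ₀ < κ →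
    Std κ X → ∀ (δ : Ordinal.{u}) (G : Ordinal.{u} → X → X),
      (∀ α β, α < β → β < δ → AB κ (G α) (G β)) → (¬ ∃ g : X → X, ∀ α, α < δ → AB κ (G α) g) →
      ∃ T : Ordinal.{u} → Set X, Good κ (T '' Set.Iio δ) ∧
        ∀ α β, α < β → β < δ → ASub κ (T β) (T α)

/-- WTO: a sequence indexed by a well-ordered type of size `κ⁺` is a tower -/
def S_WTO : Prop :=
  ∀ (κ : Cardinal.{u}) (X W : Type u) [LinearOrder W] [WellFoundedLT W], Std (succ κ) W →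
    ∀ T : W → Set X, Good κ (Set.range T) → (∀ β γ, β < γ → ASub κ (T γ) (T β)) →
      IsTower κ (Set.range T) ∧ #(↥(Set.range T)) ≤ succ κ

end Pool.Agent.K6.H62.PT
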